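import Pool.Agent.P.MP_c821f2_co.V.Data

namespace Pool.Agent.P.MP_c821f2_co.V

theorem dualO : DualPair (fam ι10 Cl) (fam ι10 Dl) :=
  dualPair_of_check (m := 10) (by norm_num) (by decide) (by decide) (mk := mk11.take 10)
    (fun t ht => mk11_spec t (List.mem_of_mem_take ht)) (by decide +kernel)
    (fun c hc d hd => (orth1_iff hι10 Cl d).1 (List.all_eq_true.1
      (show Dl.all (orth1 (cols is10 Cl)) = true by decide +kernel) d hd) _
      ⟨c, hc, Or.inl rfl⟩) (by decide +kernel)

/-- The example. -/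
def exO : OM (Fin 10) := dualO.om

def checkExt' (g f d : ℕ) (Cn D' : List ℕ) : Bool :=
  orthFast (Cn ++ Cl) (d :: D') &&
  paintCheck mk11 (2 ^ (2 ^ 11) - 1) (famC (Cn ++ Cl)) (famD (2 ^ 11 - 1) D') &&
  Cn.all (fun r => (sp r).testBit 10) &&
  Cn.any (fun r => Nat.beq (sp r) (2 ^ g ||| 2 ^ f ||| 2 ^ 10)) &&
  D'.any (fun r => (sp r).testBit 10 && !(sp r).testBit g) &&
  D'.any (fun r => (sp r).testBit 10 && !(sp r).testBit f)

def checkExt (g f d : ℕ) (x : ℕ × ℕ × ℕ × ℕ) : Bool :=
  checkExt' g f d (unpack x.1 x.2.1) (unpack x.2.2.1 x.2.2.2)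

def Good (g f : Fin 10) (d : ℕ) : Prop :=
  ∃ O' : OM (Option (Fin 10)), exO.IsExtension O' ∧ none ∈ O'.closure {some g, some f} ∧
    none ∉ O'.closure {some g} ∧ none ∉ O'.closure {some f} ∧ sv ι11 d ∈ O'.L

theorem Cl_ten : ∀ r ∈ Cl, (sp r).testBit 10 = false := by decide +kernel
theorem Dl_ten : ∀ r ∈ Dl, (sp r).testBit 10 = false := by decide +kernel

theorem checkExt'_sound (g f : Fin 10) (d : ℕ) (Cn D' : List ℕ)
    (h : checkExt' g f d Cn D' = true) : Good g f d := by
  simp only [checkExt', Bool.and_eq_true] at h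
  obtain ⟨⟨⟨⟨⟨h1, h3⟩, h4⟩, h5⟩, h6⟩, h7⟩ := h
  have h2 := orthFast_sound hι11 h1
  have h11 : ∀ x, ι11 x < 11 := by decide
  have hd : DualPair (fam ι11 (Cn ++ Cl)) (fam ι11 D') :=
    dualPair_of_check (m := 11) le_rfl h11 (by decide) mk11_spec (by decide +kernel)
      (fun c hc d hd => h2 c hc d (by simp [hd])) h3
  have hnot : ∀ g : Fin 10, D'.any (fun r => (sp r).testBit 10 && !(sp r).testBit g) = true →
      none ∉ hd.om.closure {some g} := by
    intro g hg
    obtain ⟨r, hr, h8⟩ := List.any_eq_true.1 hg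
    simp only [Bool.and_eq_true, Bool.not_eq_true'] at h8
    refine not_mem_closure_of (D := sv ι11 r) (hd.mem_perp ⟨r, hr, Or.inl rfl⟩)
      ((sp_testBit ι11 r none (by decide)).1 h8.1) ?_
    rintro _ rfl
    by_contra hne
    have := (sp_testBit ι11 r (some g) (h11 _)).2 hne
    rw [show ι11 (some g) = g from rfl, h8.2] at this
    exact absurd this (by simp)
  refine ⟨hd.om, dualO.isExtension hd ?_ ?_, ?_, hnot g h6, hnot f h7, ?_⟩
  rotate_left 3
  · rintro _ ⟨c, hc, rfl | rfl⟩
    · exact h2 c hc d (by simp)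
    · exact orth_neg_left (h2 c hc d (by simp))
  · rintro _ ⟨r, hr, rfl | rfl⟩
    · exact ⟨r, by simp [hr], Or.inl (sv_lift (Cl_ten r hr))⟩
    · exact ⟨r, by simp [hr], Or.inr (by rw [elim_neg, sv_lift (Cl_ten r hr)])⟩
  · rintro _ ⟨r, hr, hC⟩ h0
    rcases List.mem_append.1 hr with hr | hr
    · exfalso
      have := (sp_testBit ι11 r none (by decide)).1 (List.all_eq_true.1 h4 r hr)
      rcases hC with rfl | rfl
      · exact this h0
      · exact this (by simpa using h0)
    · rcases hC with rfl | rfl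
      · exact ⟨r, hr, Or.inl rfl⟩
      · exact ⟨r, hr, Or.inr rfl⟩
  · obtain ⟨r, hr, h8⟩ := List.any_eq_true.1 h5
    rw [Nat.beq_eq] at h8
    refine mem_closure_of (O := hd.om) (C := sv ι11 r)
      (fun X hX => hX _ ⟨r, by simp [hr], Or.inl rfl⟩) ?_ ?_
    · exact (sp_testBit ι11 r none (by decide)).1 (List.all_eq_true.1 h4 r hr)
    · intro x hx hxA
      by_contra hne
      have := (sp_testBit ι11 r x (h11 x)).2 hne
      rw [h8] at this
      simp only [Nat.testBit_or, Nat.testBit_two_pow, Bool.or_eq_true, decide_eq_true_eq] at this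
      cases x with
      | none => exact hx rfl
      | some y =>
        have hy : ι11 (some y) = y := rfl
        rw [hy] at this
        have := y.2
        apply hxA
        simp only [Set.mem_insert_iff, Set.mem_singleton_iff, Option.some.injEq, Fin.ext_iff]
        omega

def checkList (g f : ℕ) : List ℕ → List (ℕ × ℕ × ℕ × ℕ) → Bool
  | [], _ => true
  | d :: ds, xs => cond ((sp d).testBit g && (sp d).testBit f)
      (match xs with
        | [] => false
        | x :: xs' => checkExt g f d x && checkList g f ds xs')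
      (checkList g f ds xs)

def GoodOn (g f : Fin 10) (ds : List ℕ) : Prop :=
  ∀ d ∈ ds, (sp d).testBit g = true → (sp d).testBit f = true → Good g f d

theorem checkList_sound (g f : Fin 10) (ds : List ℕ) : ∀ xs, checkList g f ds xs = true →
    GoodOn g f ds := by
  induction ds with
  | nil => intro _ _ d hd; simp at hd
  | cons d ds ih =>
    intro xs h d' hd' h1 h2
    unfold checkList at h
    cases hc : ((sp d).testBit g && (sp d).testBit f)
    · rw [hc] at h
      rcases List.mem_cons.1 hd' with rfl | hd'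
      · rw [h1, h2] at hc; exact absurd hc (by simp)
      · exact ih xs h d' hd' h1 h2
    · rw [hc] at h
      cases xs with
      | nil => exact absurd h (by simp)
      | cons x xs =>
        simp only [cond_true, Bool.and_eq_true] at h
        rcases List.mem_cons.1 hd' with rfl | hd'
        · exact checkExt'_sound g f _ _ _ h.1
        · exact ih xs h.2 d' hd' h1 h2

def seg (i : ℕ) : List ℕ := (Dl.drop (15 * i)).take 15

theorem seg_cover : ∀ d ∈ Dl, d ∈ seg 0 ∨ d ∈ seg 1 ∨ d ∈ seg 2 ∨ d ∈ seg 3 ∨ d ∈ seg 4 ∨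
    d ∈ seg 5 ∨ d ∈ seg 6 ∨ d ∈ seg 7 := by decide +kernel

theorem goodOn_seg {g f : Fin 10} (h0 : GoodOn g f (seg 0)) (h1 : GoodOn g f (seg 1))
    (h2 : GoodOn g f (seg 2)) (h3 : GoodOn g f (seg 3)) (h4 : GoodOn g f (seg 4))
    (h5 : GoodOn g f (seg 5)) (h6 : GoodOn g f (seg 6)) (h7 : GoodOn g f (seg 7)) :
    GoodOn g f Dl := by
  intro d hd
  rcases seg_cover d hd with h | h | h | h | h | h | h | h
  exacts [h0 d h, h1 d h, h2 d h, h3 d h, h4 d h, h5 d h, h6 d h, h7 d h]

end Pool.Agent.P.MP_c821f2_co.V
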