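import Pool.Agent.P.MP_c821f2_co.Check

namespace Pool.Agent.P.MP_c821f2_co.V

def Cl : List ℕ := [
  4125, 2094, 28737, 26754, 4365, 12809, 69653, 174082, 299013, 534546, 1052693, 198662, 331781,
  534562, 1050662, 141442, 4421, 12865, 6532, 10882, 1052933, 34858, 20561, 2202, 55552, 4633,
  2154, 2218, 86273, 4649, 282689, 657418, 1067074, 786443, 1067138, 4873, 4209, 71824, 35106,
  70161, 425987, 528465, 1214466, 6544, 299521, 1572883, 198786, 4449, 201217, 2466, 332289,
  1574946, 790593, 1181826, 4929, 7040, 2108, 57409, 2204, 59648, 41481, 215044, 264236, 614401,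
  1138689, 24769, 133388, 133644, 786445, 1329156, 533001, 41057, 75920, 35108, 107009, 425989,
  532561, 1181716, 10640, 303617, 1572885, 460804, 532577, 1056865, 2468, 74369, 1050916, 794689,
  1443844, 533057, 11136, 247808, 311329, 589849, 1132560, 2264, 182528, 164361, 835585, 1361920,
  524825, 262249, 739328, 1263616, 851977, 1394688, 524841, 149888, 131721, 1067328, 1067392,
  198800, 33121, 231936, 2480, 295457, 1638417, 819265, 1050832, 166656, 819713, 985088, 1310817,
  723456, 1900545, 134016, 4156, 57410, 4252, 53508, 41482, 217092, 266284, 614402, 1138690,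
  24770, 135436, 135692, 811010, 1331204, 533002, 41058, 69780, 37156, 107010, 434178, 532562,
  1183764, 37252, 303618, 1581074, 462852, 532578, 1056866, 70020, 74370, 1052964, 925698,
  1445892, 533058, 1053060, 249856, 294954, 524346, 1134608, 20688, 53568, 164362, 524442,
  1363968, 1589266, 262250, 741376, 1265664, 786474, 1396736, 524842, 20928, 131722, 1069376,
  5000, 4336, 33122, 233984, 594064, 1343522, 1572914, 426242, 4816, 37696, 1573010, 987136,
  1310818, 725504, 1835042, 5056, 253952, 294956, 524348, 1138704, 24784, 57664, 164364, 524444,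
  1368064, 1589268, 262252, 745472, 1269760, 786476, 1400832, 524844, 25024, 131724, 1073472,
  9096, 8432, 33124, 238080, 598160, 1343524, 1572916, 426244, 8912, 41792, 1573012, 991232,
  1310820, 729600, 1835044, 9152, 507904, 720920, 1065072, 311584, 66200, 33576, 524504, 1490944,
  1589328, 920, 16864, 197256, 1065312, 936, 1851456, 1015808, 1048816, 33632, 1638544, 426752,
  2031616]

def Dl : List ℕ := [
  1671368, 1450288, 672420, 574148, 1384728, 1155400, 410164, 622796, 328530, 676512, 1740936,
  279346, 1147210, 414256, 708768, 328518, 402194, 1609892, 1716272, 99014, 626884, 541382,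
  1388808, 82758, 1454120, 328014, 287506, 541270, 1224840, 401690, 1159432, 279094, 577700,
  82518, 684080, 98510, 330576, 672417, 1736841, 281392, 1673288, 148145, 704673, 854596, 404240,
  1605797, 1188145, 330324, 622789, 805444, 1122697, 674340, 156321, 854092, 289552, 576068,
  1220745, 403736, 1122585, 281140, 573605, 1157192, 155953, 329820, 858688, 394003, 1611936,
  1179955, 334416, 628928, 809536, 1114507, 678432, 148131, 858184, 279315, 580160, 1212555,
  393499, 1114395, 285232, 579744, 1149002, 147763, 333912, 1180039, 801312, 1114439, 330310,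
  669856, 1605767, 1179927, 277072, 571584, 571936, 1147015, 327959, 1191985, 98631, 407600,
  1325320, 543302, 148103, 800840, 1126665, 1325096, 82311, 84550, 669736, 159905, 541207,
  1095816, 276760, 147991, 571464, 180359, 1095720, 82199, 276536, 100430]

def tpMask : ℕ := 0xc0c0c000aa008a0080008001dd0000ddddc0c08dff00008d8d000000c001f100c0f1f101fb01fb0080008001d1015151d1515101f3015100800000000001008a80cf808a8a8b8a8a808b8001000100df80df808f8f03008f8003000000b1b10000ffb10303bbbb0000bb8001000100510055000303030000000000

def mutL : List ℕ := [41, 717, 883]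

end Pool.Agent.P.MP_c821f2_co.V
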